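import Pool.Agent.H15.FLC.Targets

/-!
# MP_c62aed_lc, row BIN of fl2_modules: binomial tails
-/

set_option autoImplicit false

namespace Pool.Agent.H91.FLC

open Finset Pool.Agent.H15.FLC

theorem pf_BIN : T_BIN := by
  intro l k d hl hl1
  have h1 : ∑ j ∈ range (d + 1), l ^ j * (k.choose j : ℝ) ≤ (l + 1) ^ k := by
    have h2 : (l + 1) ^ k = ∑ j ∈ range (k + 1), l ^ j * (k.choose j : ℝ) := by
      rw [add_pow]
      exact sum_congr rfl fun j _ => by rw [one_pow, mul_one]
    have h3 : ∑ j ∈ range (k + 1), l ^ j * (k.choose j : ℝ) =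
        ∑ j ∈ range (max (d + 1) (k + 1)), l ^ j * (k.choose j : ℝ) := by
      refine sum_subset (range_mono (le_max_right _ _)) fun j _ hj => ?_
      have : k < j := by
        rw [mem_range] at hj
        omega
      rw [Nat.choose_eq_zero_of_lt this, Nat.cast_zero, mul_zero]
    rw [h2, h3]
    exact sum_le_sum_of_subset_of_nonneg (range_mono (le_max_left _ _)) fun j _ _ => by
      positivity
  have h4 : l ^ d * ∑ j ∈ range (d + 1), (k.choose j : ℝ) ≤
      ∑ j ∈ range (d + 1), l ^ j * (k.choose j : ℝ) := by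
    rw [mul_sum]
    refine sum_le_sum fun j hj => ?_
    have hj' : j ≤ d := by
      rw [mem_range] at hj
      omega
    exact mul_le_mul_of_nonneg_right (pow_le_pow_of_le_one hl.le hl1 hj') (by positivity)
  have h5 : (l + 1) ^ k ≤ Real.exp (l * k) := by
    calc (l + 1) ^ k ≤ (Real.exp l) ^ k := pow_le_pow_left₀ (by linarith)
          (Real.add_one_le_exp l) k
      _ = Real.exp (l * k) := by rw [← Real.exp_nat_mul, mul_comm]
  have h6 : l ^ d * ∑ j ∈ range (d + 1), (k.choose j : ℝ) ≤ Real.exp (l * k) :=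
    h4.trans (h1.trans h5)
  have h7 : (0 : ℝ) < l ^ d := pow_pos hl d
  have h8 : (1 / l) ^ d = 1 / l ^ d := by rw [one_div, inv_pow, one_div]
  rw [h8, one_div, ← div_eq_inv_mul, le_div_iff₀ h7, mul_comm]
  exact h6

end Pool.Agent.H91.FLC
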