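import Pool.Agent.H15.FLC.Targets

/-!
# MP_c62aed_lc, row DET of fl2_modules: CNFs whose halves satisfy H2 have no short refutations
-/

set_option autoImplicit false

namespace Pool.Agent.H91.FLC

open Finset Pool.Agent.H15.FLC
open Pool.Agent.H53.MC (tau)

/-- few half clauses are inside a small set -/
private theorem det_ins {n k m : ℕ} {H : Fin m → Half n k} {w d s₀ : ℕ} (h : H2 H w d s₀)
    (p : Finset (Fin n) × (Fin n → Bool)) (hp : p.1.card < w) :
    Nat.card {c // InsC H p c} ≤ s₀ := by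
  classical
  refine le_trans ?_ (h p.1 (by omega) p.2)
  unfold cntC
  rw [Nat.card_eq_fintype_card, Fintype.card_subtype]
  refine card_le_card fun c hc => ?_
  rw [mem_filter] at hc ⊢
  refine ⟨mem_univ _, hc.2.1, ?_⟩
  have h0 : ((H c).1.1.filter fun i => p.2 i = (H c).2 i) = ∅ := by
    rw [filter_eq_empty_iff]
    exact fun i hi => hc.2.2 i hi
  have h1 : ((H c).1.1.filter fun i => p.2 i = (H c).2 i).card = 0 := by
    rw [h0, card_empty]
  convert Nat.zero_le d using 1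

theorem pf_DET (hEBC : T_EBC) (hKRCX : T_KRCX) (hCAPC : T_CAPC) (hYC : T_YC) (hLFC : T_LFC)
    (hPRC : T_PRC) : T_DET := by
  classical
  intro n k m γ t w d s₀ r P F h1 h2 s f g hR hs
  set H : Fin m → Half n k := fun c => (F c).1 with hH
  set H' : Fin m → Half n k := fun c => (F c).2 with hH'
  have hr : 1 ≤ r := by
    have := P.rr
    have := P.t1
    nlinarith
  have hcardN : Fintype.card (Fin n → Bool) = 2 ^ n := by
    rw [Fintype.card_fun, Fintype.card_bool, Fintype.card_fin]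
  -- the powers of two
  have hpow : (2 : ℝ) ^ (γ * n) * 2 ^ ((1 - γ) * n) = 2 ^ n := by
    rw [← Real.rpow_add (by norm_num)]
    have : γ * (n : ℝ) + (1 - γ) * n = (n : ℕ) := by ring
    rw [this, Real.rpow_natCast]
  have hs0 : (0 : ℝ) ≤ s := Nat.cast_nonneg _
  -- the bad assignments
  have hbad : ∀ i, (univ.filter fun y : Fin n → Bool =>
      BadC H s₀ (KRC H r w f i) (RY H' y)).card ≤ s₀ ^ (s₀ + 1) * 2 ^ (n - w) := by
    intro i
    have := hLFC H H' w s₀ s₀ (2 ^ (n - w)) (fun p hp => det_ins h1 p hp)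
      (fun T hT => hYC H' w d s₀ h2 P.wn T hT) (KRC H r w f i) (hKRCX H r w f i).1
      (hKRCX H r w f i).2
    rw [Nat.card_eq_fintype_card, Fintype.card_subtype] at this
    exact this
  obtain ⟨y, hy⟩ : ∃ y : Fin n → Bool, ∀ i, i < s →
      ¬ BadC H s₀ (KRC H r w f i) (RY H' y) := by
    by_contra hcon
    push Not at hcon
    have hsub : (univ : Finset (Fin n → Bool)) ⊆ (range s).biUnion fun i =>
        univ.filter fun y : Fin n → Bool => BadC H s₀ (KRC H r w f i) (RY H' y) := by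
      intro y _
      obtain ⟨i, hi, hb⟩ := hcon y
      rw [mem_biUnion]
      exact ⟨i, mem_range.mpr hi, mem_filter.mpr ⟨mem_univ _, hb⟩⟩
    have hc1 : 2 ^ n ≤ s * (s₀ ^ (s₀ + 1) * 2 ^ (n - w)) := by
      have h3 := card_le_card hsub
      rw [card_univ, hcardN] at h3
      refine h3.trans (card_biUnion_le.trans ?_)
      refine (sum_le_sum fun i _ => hbad i).trans ?_
      rw [sum_const, card_range, smul_eq_mul]
    have hc2 : ((2 : ℝ)) ^ n ≤ s * ((s₀ ^ (s₀ + 1) * 2 ^ (n - w) : ℕ) : ℝ) := by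
      have : (((2 ^ n : ℕ)) : ℝ) ≤ ((s * (s₀ ^ (s₀ + 1) * 2 ^ (n - w)) : ℕ) : ℝ) := by
        exact_mod_cast hc1
      rw [Nat.cast_mul s] at this
      simpa using this
    have hc3 := P.bad4
    have hc4 : 4 * (2 : ℝ) ^ n ≤ 2 ^ n := by
      calc 4 * (2 : ℝ) ^ n ≤ 4 * (s * ((s₀ ^ (s₀ + 1) * 2 ^ (n - w) : ℕ) : ℝ)) := by linarith
        _ = s * (4 * ((s₀ ^ (s₀ + 1) * 2 ^ (n - w) : ℕ) : ℝ)) := by ring
        _ ≤ 2 ^ (γ * n) * 2 ^ ((1 - γ) * n) :=
            mul_le_mul hs hc3 (by positivity) (by positivity)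
        _ = 2 ^ n := hpow
    have hc5 : (0 : ℝ) < 2 ^ n := by positivity
    linarith
  -- the last line
  have hs1 : s - 1 < s := by
    have := hR.1
    omega
  have hs2 : s - 1 + 1 = s := by
    have := hR.1
    omega
  obtain ⟨T, -, hTc, hTcov⟩ := hPRC F r w s₀ t s f g P.rr hR y hy (s - 1) hs1
  have hB := hCAPC H s₀ T _ hTc hTcov
  rw [hs2] at hB
  have hE := hEBC H r w d s₀ hr P.d1 P.wn h1 f s
  have hcov : (univ : Finset (Fin n → Bool)) ⊆ ERC H r w f s ∪
      BRC (ERC H r w f s) (f (s - 1)) (-(g (s - 1) y)) := by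
    intro x _
    rw [mem_union]
    by_cases hx : x ∈ ERC H r w f s
    · exact Or.inl hx
    · refine Or.inr ?_
      unfold BRC
      rw [mem_filter]
      refine ⟨mem_univ _, hx, ?_⟩
      have := hR.2.1 x y
      linarith
  have hN : 2 ^ n ≤ s * tau n r w d s₀ + s₀ * 2 ^ (n - k) := by
    have h3 := card_le_card hcov
    rw [card_univ, hcardN] at h3
    exact h3.trans ((card_union_le _ _).trans (Nat.add_le_add hE hB))
  have hN' : (2 : ℝ) ^ n ≤ s * (tau n r w d s₀ : ℝ) + ((s₀ * 2 ^ (n - k) : ℕ) : ℝ) := by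
    have : (((2 ^ n : ℕ)) : ℝ) ≤ ((s * tau n r w d s₀ + s₀ * 2 ^ (n - k) : ℕ) : ℝ) := by
      exact_mod_cast hN
    rw [Nat.cast_add, Nat.cast_mul s] at this
    simpa using this
  have hT4 : 4 * (s * (tau n r w d s₀ : ℝ)) ≤ 2 ^ n := by
    calc 4 * (s * (tau n r w d s₀ : ℝ)) = s * (4 * (tau n r w d s₀ : ℝ)) := by ring
      _ ≤ 2 ^ (γ * n) * 2 ^ ((1 - γ) * n) :=
          mul_le_mul hs P.tau4 (by positivity) (by positivity)
      _ = 2 ^ n := hpow
  have hC4 : 4 * ((s₀ * 2 ^ (n - k) : ℕ) : ℝ) < 2 ^ n := by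
    have : ((4 * (s₀ * 2 ^ (n - k)) : ℕ) : ℝ) < ((2 ^ n : ℕ) : ℝ) := by
      exact_mod_cast P.cov
    rw [Nat.cast_mul 4] at this
    simpa using this
  have hpos : (0 : ℝ) < 2 ^ n := by positivity
  linarith

end Pool.Agent.H91.FLC
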